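import Pool.Agent.H6.NE.Stm1

/-!
# NE, parts EX and TEI (MP_895f30): the truncated exponential, roots of unity in `Z/p^N`
-/

set_option autoImplicit false

open Finset

namespace H11.NE

open H6.NE

section
variable {p N : ℕ} [hp : Fact p.Prime] {S : Type} [Ring S] [Algebra (ZMod (p ^ N)) S]

theorem facU {i : ℕ} (hi : i < p) : IsUnit ((i.factorial : ℕ) : ZMod (p ^ N)) := by
  rw [ZMod.isUnit_iff_coprime]
  exact ((hp.out.coprime_iff_not_dvd).2 (by rw [hp.out.dvd_factorial]; omega)).symm.pow_right N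

theorem fac_inv {i : ℕ} (hi : i < p) :
    ((i.factorial : ZMod (p ^ N))⁻¹) * (i.factorial : ZMod (p ^ N)) = 1 :=
  ZMod.inv_mul_of_unit _ (facU hi)

theorem fac_inv_zero : (((0 : ℕ).factorial : ZMod (p ^ N))⁻¹) = 1 := by
  have h := fac_inv (p := p) (N := N) (i := 0) hp.out.pos
  simpa using h

theorem fac_inv_one : (((1 : ℕ).factorial : ZMod (p ^ N))⁻¹) = 1 := by
  have h := fac_inv (p := p) (N := N) (i := 1) hp.out.one_lt
  simpa using h

theorem powle {J : Submodule (ZMod (p ^ N)) S} (hJ : J * J ≤ J) {m n : ℕ} (hm : 1 ≤ m)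
    (h : m ≤ n) : J ^ n ≤ J ^ m := by
  induction n, h using Nat.le_induction with
  | base => exact le_rfl
  | succ n hn ih =>
    refine le_trans ?_ ih
    obtain ⟨k, rfl⟩ : ∃ k, n = k + 1 := ⟨n - 1, by omega⟩
    calc J ^ (k + 1 + 1) = J ^ k * (J * J) := by rw [pow_succ, pow_succ, mul_assoc]
      _ ≤ J ^ k * J := mul_le_mul' le_rfl hJ
      _ = J ^ (k + 1) := (pow_succ _ _).symm

theorem pow_memJ {J : Submodule (ZMod (p ^ N)) S} (hJ : J * J ≤ J) {x : S} (hx : x ∈ J) {i : ℕ}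
    (hi : 1 ≤ i) : x ^ i ∈ J := by
  have h := powle hJ le_rfl hi (Submodule.pow_mem_pow J hx i)
  rwa [pow_one] at h

theorem powdiff {J : Submodule (ZMod (p ^ N)) S} (hJ : J * J ≤ J) {m : ℕ} (hm : 1 ≤ m) {x y : S}
    (hx : x ∈ J) (hy : y ∈ J) (h : x - y ∈ J ^ m) (i : ℕ) :
    x ^ (i + 2) - y ^ (i + 2) ∈ J ^ (m + 1) := by
  induction i with
  | zero =>
    have e : x ^ 2 - y ^ 2 = x * (x - y) + (x - y) * y := by noncomm_ring
    rw [zero_add, e]
    refine add_mem ?_ ?_
    · rw [pow_succ']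
      exact Submodule.mul_mem_mul hx h
    · rw [pow_succ]
      exact Submodule.mul_mem_mul h hy
  | succ i ih =>
    have e : x ^ (i + 1 + 2) - y ^ (i + 1 + 2) =
        x * (x ^ (i + 2) - y ^ (i + 2)) + (x - y) * y ^ (i + 2) := by
      rw [show i + 1 + 2 = (i + 2) + 1 by ring, pow_succ' x, pow_succ' y]
      noncomm_ring
    rw [e]
    refine add_mem ?_ ?_
    · refine powle hJ (by omega) (by omega : m + 1 ≤ (m + 1) + 1) ?_
      rw [pow_succ' J (m + 1)]
      exact Submodule.mul_mem_mul hx ih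
    · rw [pow_succ]
      exact Submodule.mul_mem_mul h (pow_memJ hJ hy (by omega))

theorem ex_split (x : S) : ex p N x = 1 + x +
    ∑ i ∈ Finset.range (p - 2), (((i + 2).factorial : ZMod (p ^ N))⁻¹) • x ^ (i + 2) := by
  have h2 := hp.out.two_le
  unfold ex
  obtain ⟨q, hq⟩ : ∃ q, p = q + 2 := ⟨p - 2, by omega⟩
  rw [show Finset.range p = Finset.range (p - 2 + 1 + 1) by congr 1; omega,
    Finset.sum_range_succ', Finset.sum_range_succ', fac_inv_zero, show (0 + 1 : ℕ) = 1 from rfl,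
    fac_inv_one]
  simp only [one_smul, pow_zero, pow_one]
  rw [show ∀ a b c : S, a + b + c = c + b + a from fun a b c => by abel]

theorem ex_diff {J : Submodule (ZMod (p ^ N)) S} (hJ : J * J ≤ J) {m : ℕ} (hm : 1 ≤ m) {x y : S}
    (hx : x ∈ J) (hy : y ∈ J) (h : x - y ∈ J ^ m) :
    ex p N x - ex p N y - (x - y) ∈ J ^ (m + 1) := by
  rw [ex_split, ex_split]
  have e : ∀ A B : S, 1 + x + A - (1 + y + B) - (x - y) = A - B := fun A B => by abel
  rw [e, ← Finset.sum_sub_distrib]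
  refine Submodule.sum_mem _ fun i _ => ?_
  rw [← smul_sub]
  exact Submodule.smul_mem _ _ (powdiff hJ hm hx hy h i)

theorem ex_commute {x z : S} (h : Commute z x) : Commute z (ex p N x) := by
  unfold ex
  refine Commute.sum_right _ _ _ fun i _ => ?_
  exact (h.pow_right i).smul_right _

theorem ex_zero : ex p N (0 : S) = 1 := by
  rw [ex_split]
  simp

theorem ex_mem {J : Submodule (ZMod (p ^ N)) S} (hJ : J * J ≤ J) {x : S} (hx : x ∈ J) :
    ex p N x - 1 ∈ J ∧ ex p N x - 1 - x ∈ J ^ 2 := by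
  have h := ex_diff (N := N) hJ le_rfl hx (zero_mem J) (by rw [pow_one, sub_zero]; exact hx)
  rw [ex_zero, sub_zero] at h
  refine ⟨?_, h⟩
  have h1 := powle hJ le_rfl (by omega : 1 ≤ 1 + 1) h
  rw [pow_one] at h1
  have h2 := add_mem h1 hx
  simpa using h2

theorem ex_inj {J : Submodule (ZMod (p ^ N)) S} (hJ : J * J ≤ J) {c : ℕ} (hc : J ^ (c + 1) = ⊥)
    {x y : S} (hx : x ∈ J) (hy : y ∈ J) (h : ex p N x = ex p N y) : x = y := by
  have key : ∀ m : ℕ, x - y ∈ J ^ (m + 1) := by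
    intro m
    induction m with
    | zero => rw [zero_add, pow_one]; exact sub_mem hx hy
    | succ m ih =>
      have h1 := ex_diff (N := N) hJ (by omega) hx hy ih
      rw [h, sub_self, zero_sub] at h1
      exact (neg_mem_iff).1 h1
  have h1 := key c
  rw [hc, Submodule.mem_bot] at h1
  exact sub_eq_zero.1 h1

theorem ex_surj {J : Submodule (ZMod (p ^ N)) S} (hJ : J * J ≤ J) {c : ℕ} (hc : J ^ (c + 1) = ⊥)
    {h : S} (hh : h - 1 ∈ J) :
    ∃ x ∈ J, ex p N x = h ∧ (∀ z : S, Commute z h → Commute z x) := by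
  have key : ∀ m : ℕ, ∃ x ∈ J, (∀ z : S, Commute z h → Commute z x) ∧
      h - ex p N x ∈ J ^ (m + 1) := by
    intro m
    induction m with
    | zero =>
      refine ⟨0, zero_mem _, fun z _ => Commute.zero_right z, ?_⟩
      rw [ex_zero, zero_add, pow_one]
      exact hh
    | succ m ih =>
      obtain ⟨x, hx, hc, hm⟩ := ih
      have hdJ : h - ex p N x ∈ J := by
        have h1 := powle hJ le_rfl (by omega : 1 ≤ m + 1) hm
        rwa [pow_one] at h1
      refine ⟨x + (h - ex p N x), add_mem hx hdJ, fun z hz => ?_, ?_⟩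
      · exact (hc z hz).add_right (hz.sub_right (ex_commute (hc z hz)))
      · have h1 := ex_diff (N := N) hJ (by omega : 1 ≤ m + 1) (add_mem hx hdJ) hx
          (by rw [add_sub_cancel_left]; exact hm)
        have h2 := neg_mem h1
        have e : -(ex p N (x + (h - ex p N x)) - ex p N x - (x + (h - ex p N x) - x)) =
            h - ex p N (x + (h - ex p N x)) := by abel
        rw [e] at h2
        exact h2
  obtain ⟨x, hx, hz, hm⟩ := key c
  rw [hc, Submodule.mem_bot] at hm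
  exact ⟨x, hx, (sub_eq_zero.1 hm).symm, hz⟩

theorem mulpow_zero {J : Submodule (ZMod (p ^ N)) S} {c : ℕ} (hJ : J * J ≤ J) (hcp : c < p)
    (hc : J ^ (c + 1) = ⊥) {x y : S} (hx : x ∈ J) (hy : y ∈ J) {i j : ℕ} (hij : p ≤ i + j) :
    x ^ i * y ^ j = 0 := by
  have h1 : x ^ i * y ^ j ∈ J ^ (i + j) := by
    rw [pow_add]
    exact Submodule.mul_mem_mul (Submodule.pow_mem_pow J hx i) (Submodule.pow_mem_pow J hy j)
  have h2 := powle hJ (by omega : 1 ≤ c + 1) (by omega : c + 1 ≤ i + j) h1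
  rw [hc, Submodule.mem_bot] at h2
  exact h2

theorem ex_add {J : Submodule (ZMod (p ^ N)) S} {c : ℕ} (hJ : J * J ≤ J) (hcp : c < p)
    (hc : J ^ (c + 1) = ⊥) {x y : S} (hx : x ∈ J) (hy : y ∈ J) (hxy : Commute x y) :
    ex p N (x + y) = ex p N x * ex p N y := by
  have e1 : ex p N (x + y) = ∑ n ∈ Finset.range p, ∑ ij ∈ HasAntidiagonal.antidiagonal n,
      (((ij.1.factorial : ZMod (p ^ N))⁻¹) * ((ij.2.factorial : ZMod (p ^ N))⁻¹)) •
        (x ^ ij.1 * y ^ ij.2) := by
    unfold ex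
    refine Finset.sum_congr rfl fun n hn => ?_
    rw [Finset.mem_range] at hn
    rw [hxy.add_pow', Finset.smul_sum]
    refine Finset.sum_congr rfl fun ij hij => ?_
    rw [HasAntidiagonal.mem_antidiagonal] at hij
    rw [← Nat.cast_smul_eq_nsmul (ZMod (p ^ N)), smul_smul]
    congr 1
    have h1 := fac_inv (p := p) (N := N) (i := ij.1) (by omega)
    have h2 := fac_inv (p := p) (N := N) (i := ij.2) (by omega)
    have h3 := fac_inv (p := p) (N := N) (i := n) hn
    have h4 : ((n.choose ij.1 : ℕ) : ZMod (p ^ N)) * (ij.1.factorial : ZMod (p ^ N)) *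
        (ij.2.factorial : ZMod (p ^ N)) = (n.factorial : ZMod (p ^ N)) := by
      have := Nat.choose_mul_factorial_mul_factorial (n := n) (k := ij.1) (by omega)
      rw [show n - ij.1 = ij.2 by omega] at this
      exact_mod_cast congrArg (Nat.cast : ℕ → ZMod (p ^ N)) this
    set A := ((ij.1.factorial : ZMod (p ^ N))⁻¹)
    set B := ((ij.2.factorial : ZMod (p ^ N))⁻¹)
    set C := ((n.factorial : ZMod (p ^ N))⁻¹)
    calc C * ((n.choose ij.1 : ℕ) : ZMod (p ^ N)) =
        C * ((n.choose ij.1 : ℕ) : ZMod (p ^ N)) * (A * (ij.1.factorial : ZMod (p ^ N))) *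
          (B * (ij.2.factorial : ZMod (p ^ N))) := by rw [h1, h2]; ring
      _ = (C * (((n.choose ij.1 : ℕ) : ZMod (p ^ N)) * (ij.1.factorial : ZMod (p ^ N)) *
        (ij.2.factorial : ZMod (p ^ N)))) * (A * B) := by ring
      _ = A * B := by rw [h4, h3, one_mul]
  have e2 : ex p N x * ex p N y = ∑ ij ∈ Finset.range p ×ˢ Finset.range p,
      (((ij.1.factorial : ZMod (p ^ N))⁻¹) * ((ij.2.factorial : ZMod (p ^ N))⁻¹)) •
        (x ^ ij.1 * y ^ ij.2) := by
    unfold ex
    rw [Finset.sum_mul_sum, ← Finset.sum_product']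
    refine Finset.sum_congr rfl fun ij _ => ?_
    rw [smul_mul_smul_comm]
  rw [e1, e2, Finset.sum_sigma']
  refine Finset.sum_of_injOn (fun s : (_ : ℕ) × (ℕ × ℕ) => s.2) ?_ ?_ ?_ ?_
  · rintro ⟨n, i, j⟩ h ⟨n', i', j'⟩ h' he
    simp only [Finset.coe_sigma, Set.mem_sigma_iff, Finset.mem_coe, HasAntidiagonal.mem_antidiagonal] at h h' he
    obtain ⟨_, h⟩ := h
    obtain ⟨_, h'⟩ := h'
    rw [Prod.mk.injEq] at he
    obtain ⟨rfl, rfl⟩ := he
    subst h
    subst h'
    rfl
  · rintro ⟨n, i, j⟩ h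
    simp only [Finset.coe_sigma, Set.mem_sigma_iff, Finset.mem_coe, HasAntidiagonal.mem_antidiagonal,
      Finset.mem_range] at h
    simp only [Finset.coe_product, Set.mem_prod, Finset.mem_coe, Finset.mem_range]
    omega
  · rintro ⟨i, j⟩ h1 h2
    simp only [Finset.mem_product, Finset.mem_range] at h1
    have : p ≤ i + j := by
      by_contra hlt
      refine h2 ?_
      refine ⟨⟨i + j, i, j⟩, ?_, rfl⟩
      simp only [Finset.coe_sigma, Set.mem_sigma_iff, Finset.mem_coe, HasAntidiagonal.mem_antidiagonal,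
        Finset.mem_range]
      exact ⟨by omega, trivial⟩
    simp only
    rw [mulpow_zero hJ hcp hc hx hy this, smul_zero]
  · rintro ⟨n, i, j⟩ _
    rfl

theorem ex_unit {J : Submodule (ZMod (p ^ N)) S} {c : ℕ} (hJ : J * J ≤ J) (hcp : c < p)
    (hc : J ^ (c + 1) = ⊥) {x : S} (hx : x ∈ J) :
    ∃ w : Sˣ, Commute (w : S) x ∧ ex p N x - 1 = x * (w : S) := by
  set v : S := ∑ i ∈ Finset.range (p - 2), (((i + 2).factorial : ZMod (p ^ N))⁻¹) • x ^ i with hv
  have hvx : Commute v x := by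
    rw [hv]
    refine Commute.sum_left _ _ _ fun i _ => ?_
    exact ((Commute.refl x).pow_left i).smul_left _
  have hnil : IsNilpotent x := ⟨p, by
    have := mulpow_zero hJ hcp hc hx hx (i := p) (j := 0) (by omega)
    simpa using this⟩
  have hn2 : IsNilpotent (x * v) := (hvx.symm).isNilpotent_mul_right hnil
  obtain ⟨w, hw⟩ := hn2.isUnit_one_add
  refine ⟨w, ?_, ?_⟩
  · rw [hw]
    exact (Commute.one_left x).add_left ((Commute.refl x).mul_left hvx)
  · rw [hw, ex_split, hv, mul_add, mul_one, ← mul_assoc, Finset.mul_sum]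
    have : ∑ i ∈ Finset.range (p - 2), x * x * (((i + 2).factorial : ZMod (p ^ N))⁻¹ • x ^ i) =
        ∑ i ∈ Finset.range (p - 2), (((i + 2).factorial : ZMod (p ^ N))⁻¹) • x ^ (i + 2) := by
      refine Finset.sum_congr rfl fun i _ => ?_
      rw [mul_smul_comm, pow_succ', pow_succ', mul_assoc]
    rw [this]
    abel

theorem ex_conj (h : Sˣ) (x : S) : ex p N ((h : S) * x * ((h⁻¹ : Sˣ) : S)) =
    (h : S) * ex p N x * ((h⁻¹ : Sˣ) : S) := by
  unfold ex
  rw [Finset.mul_sum, Finset.sum_mul]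
  refine Finset.sum_congr rfl fun i _ => ?_
  rw [Units.conj_pow, mul_smul_comm, smul_mul_assoc]

theorem ex_nat {J : Submodule (ZMod (p ^ N)) S} {c : ℕ} (hJ : J * J ≤ J) (hcp : c < p)
    (hc : J ^ (c + 1) = ⊥) {x : S} (hx : x ∈ J) (h : Sˣ) (hh : (h : S) = ex p N x) (n : ℕ) :
    ((h ^ n : Sˣ) : S) = ex p N ((n : ZMod (p ^ N)) • x) := by
  induction n with
  | zero => simp [ex_zero]
  | succ n ih =>
    have e : ((n + 1 : ℕ) : ZMod (p ^ N)) • x = (n : ZMod (p ^ N)) • x + x := by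
      push_cast
      rw [add_smul, one_smul]
    rw [e, ex_add hJ hcp hc (Submodule.smul_mem _ _ hx) hx ((Commute.refl x).smul_left _), ← ih,
      ← hh, pow_succ, Units.val_mul]

end

/-- part EX -/
theorem t_EX : S_EX := by
  intro p N c _ S _ _ J hJ hcp hc
  refine ⟨fun x hx y hy hxy => ex_add hJ hcp hc hx hy hxy, fun x hx => ex_mem hJ hx,
    fun x hx y hy h => ex_inj hJ hc hx hy h, fun h hh => ex_surj hJ hc hh,
    fun x hx => ex_unit hJ hcp hc hx, fun h x => ex_conj h x, fun x hx h hh => ?_⟩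
  have h1 := ex_nat hJ hcp hc hx h hh
  refine ⟨?_, h1⟩
  ext
  rw [h1, Units.val_one, ZMod.natCast_self, zero_smul, ex_zero]

theorem unit_of_red {p N : ℕ} [hp : Fact p.Prime] (hN : 0 < N) {x : ZMod (p ^ N)}
    (h : ZMod.castHom (dvd_pow_self p hN.ne') (ZMod p) x ≠ 0) : IsUnit x := by
  haveI : NeZero (p ^ N) := ⟨(pow_pos hp.out.pos N).ne'⟩
  rw [← ZMod.natCast_zmod_val x] at h ⊢
  rw [map_natCast] at h
  rw [ZMod.isUnit_iff_coprime]
  refine Nat.Coprime.pow_right N (((hp.out.coprime_iff_not_dvd).2 ?_).symm)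
  intro hd
  exact h ((ZMod.natCast_eq_zero_iff _ _).2 hd)

/-- part TEI -/
theorem t_TEI : S_TEI := by
  intro p N hp hN
  haveI : NeZero (p ^ N) := ⟨(pow_pos hp.out.pos N).ne'⟩
  obtain ⟨g, hg⟩ := IsCyclic.exists_generator (α := (ZMod p)ˣ)
  have hord : orderOf g = p - 1 := by
    rw [orderOf_eq_card_of_forall_mem_zpowers hg, Nat.card_eq_fintype_card, ZMod.card_units]
  -- lift
  set G : ℕ := (g : ZMod p).val with hG
  have hGp : ((G : ℕ) : ZMod p) = (g : ZMod p) := by rw [hG, ZMod.natCast_zmod_val]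
  set z : ZMod (p ^ N) := (G : ZMod (p ^ N)) ^ (p ^ (N - 1)) with hz
  have hGc : Nat.Coprime G (p ^ N) := by
    refine Nat.Coprime.pow_right N (((hp.out.coprime_iff_not_dvd).2 ?_).symm)
    intro hd
    have h0 := (ZMod.natCast_eq_zero_iff G p).2 hd
    rw [hGp] at h0
    exact g.ne_zero h0
  have hz1 : z ^ (p - 1) = 1 := by
    rw [hz, ← pow_mul]
    have h1 := ZMod.pow_totient (ZMod.unitOfCoprime G hGc)
    rw [Nat.totient_prime_pow hp.out hN] at h1
    have h2 := congrArg (Units.val) h1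
    rw [Units.val_pow_eq_pow_val, ZMod.coe_unitOfCoprime, Units.val_one] at h2
    exact h2
  refine ⟨z, hz1, fun j hj0 hj => ?_⟩
  have hred : ZMod.castHom (dvd_pow_self p hN.ne') (ZMod p) (z ^ j) = (g : ZMod p) ^ j := by
    rw [hz, map_pow, map_pow, map_natCast, hGp]
    congr 1
    exact ZMod.pow_card_pow _
  have hu : IsUnit (z ^ j - 1) := by
    refine unit_of_red hN ?_
    rw [map_sub, hred, map_one, sub_ne_zero]
    intro h1
    have h2 : g ^ j = 1 := by
      ext
      rw [Units.val_pow_eq_pow_val, h1, Units.val_one]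
    have h3 := orderOf_dvd_of_pow_eq_one h2
    rw [hord] at h3
    exact absurd (Nat.le_of_dvd hj0 h3) (by omega)
  have hgeo := geom_sum_mul (z ^ j) (p - 1)
  rw [show (z ^ j) ^ (p - 1) = 1 by rw [pow_right_comm, hz1, one_pow], sub_self] at hgeo
  have h0 := (hu.mul_left_eq_zero).1 hgeo
  rw [← h0]
  refine Finset.sum_congr rfl fun a _ => ?_
  rw [← pow_mul z j a, mul_comm a j]

end H11.NE
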