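import Pool.Agent.H11.NE.EX

/-!
# NE, parts LH1 and LH2 (MP_895f30): the Lie ring of logarithms
-/

set_option autoImplicit false

open Finset

namespace H11.NE

open H6.NE
open scoped commutatorElement

section
variable {p N : ℕ} [hp : Fact p.Prime] {S : Type} [Ring S] [Algebra (ZMod (p ^ N)) S]

/-- the coefficients of `ex (t x) y ex (- t x)` -/
noncomputable def Yc (p N : ℕ) {S : Type} [Ring S] [Algebra (ZMod (p ^ N)) S] (x y : S) (j : ℕ) :
    S :=
  ∑ ij ∈ HasAntidiagonal.antidiagonal j,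
    (((ij.1.factorial : ZMod (p ^ N))⁻¹) * ((ij.2.factorial : ZMod (p ^ N))⁻¹)) •
      (x ^ ij.1 * y * (-x) ^ ij.2)

theorem Yc_zero (x y : S) : Yc p N x y 0 = y := by
  unfold Yc
  rw [Finset.Nat.antidiagonal_zero, Finset.sum_singleton]
  simp only [fac_inv_zero, mul_one, one_smul, pow_zero, one_mul]

theorem Yc_one (x y : S) : Yc p N x y 1 = x * y - y * x := by
  unfold Yc
  rw [Finset.Nat.sum_antidiagonal_eq_sum_range_succ_mk, Finset.sum_range_succ,
    Finset.sum_range_succ, Finset.sum_range_zero]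
  simp only [Nat.sub_zero, Nat.sub_self, zero_add, fac_inv_zero, fac_inv_one,
    mul_one, one_smul, pow_zero, pow_one, one_mul, mul_neg]
  abel

theorem mulmul_zero {J : Submodule (ZMod (p ^ N)) S} {c : ℕ} (hJ : J * J ≤ J) (hcp : c < p)
    (hc : J ^ (c + 1) = ⊥) {x y : S} (hx : x ∈ J) (hy : y ∈ J) {i j : ℕ} (hij : p ≤ i + j) :
    x ^ i * y * (-x) ^ j = 0 := by
  have h1 : x ^ i * y * (-x) ^ j ∈ J ^ (i + 1 + j) := by
    rw [pow_add, pow_add, pow_one]
    exact Submodule.mul_mem_mul (Submodule.mul_mem_mul (Submodule.pow_mem_pow J hx i) hy)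
      (Submodule.pow_mem_pow J (neg_mem hx) j)
  have h2 := powle hJ (by omega : 1 ≤ c + 1) (by omega : c + 1 ≤ i + 1 + j) h1
  rw [hc, Submodule.mem_bot] at h2
  exact h2

theorem Yc_sum {J : Submodule (ZMod (p ^ N)) S} {c : ℕ} (hJ : J * J ≤ J) (hcp : c < p)
    (hc : J ^ (c + 1) = ⊥) {x y : S} (hx : x ∈ J) (hy : y ∈ J) (t : ZMod (p ^ N)) :
    ∑ j ∈ Finset.range p, t ^ j • Yc p N x y j =
      ex p N (t • x) * y * ex p N (-(t • x)) := by
  have e1 : ∑ j ∈ Finset.range p, t ^ j • Yc p N x y j =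
      ∑ n ∈ Finset.range p, ∑ ij ∈ HasAntidiagonal.antidiagonal n,
      (t ^ (ij.1 + ij.2) * (((ij.1.factorial : ZMod (p ^ N))⁻¹) *
        ((ij.2.factorial : ZMod (p ^ N))⁻¹))) • (x ^ ij.1 * y * (-x) ^ ij.2) := by
    refine Finset.sum_congr rfl fun n hn => ?_
    unfold Yc
    rw [Finset.smul_sum]
    refine Finset.sum_congr rfl fun ij hij => ?_
    rw [HasAntidiagonal.mem_antidiagonal] at hij
    rw [smul_smul, hij]
  have e2 : ex p N (t • x) * y * ex p N (-(t • x)) =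
      ∑ ij ∈ Finset.range p ×ˢ Finset.range p,
      (t ^ (ij.1 + ij.2) * (((ij.1.factorial : ZMod (p ^ N))⁻¹) *
        ((ij.2.factorial : ZMod (p ^ N))⁻¹))) • (x ^ ij.1 * y * (-x) ^ ij.2) := by
    unfold ex
    rw [Finset.sum_mul, Finset.sum_mul_sum, ← Finset.sum_product']
    refine Finset.sum_congr rfl fun ij _ => ?_
    rw [← smul_neg, smul_pow, smul_pow, smul_smul, smul_smul, smul_mul_assoc,
      smul_mul_smul_comm]
    congr 1
    ring
  rw [e1, e2, Finset.sum_sigma']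
  refine Finset.sum_of_injOn (fun s : (_ : ℕ) × (ℕ × ℕ) => s.2) ?_ ?_ ?_ ?_
  · rintro ⟨n, i, j⟩ h ⟨n', i', j'⟩ h' he
    simp only [Finset.coe_sigma, Set.mem_sigma_iff, Finset.mem_coe,
      HasAntidiagonal.mem_antidiagonal] at h h' he
    obtain ⟨_, h⟩ := h
    obtain ⟨_, h'⟩ := h'
    rw [Prod.mk.injEq] at he
    obtain ⟨rfl, rfl⟩ := he
    subst h
    subst h'
    rfl
  · rintro ⟨n, i, j⟩ h
    simp only [Finset.coe_sigma, Set.mem_sigma_iff, Finset.mem_coe,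
      HasAntidiagonal.mem_antidiagonal, Finset.mem_range] at h
    simp only [Finset.coe_product, Set.mem_prod, Finset.mem_coe, Finset.mem_range]
    omega
  · rintro ⟨i, j⟩ h1 h2
    simp only [Finset.mem_product, Finset.mem_range] at h1
    have : p ≤ i + j := by
      by_contra hlt
      refine h2 ?_
      refine ⟨⟨i + j, i, j⟩, ?_, rfl⟩
      simp only [Finset.coe_sigma, Set.mem_sigma_iff, Finset.mem_coe,
        HasAntidiagonal.mem_antidiagonal, Finset.mem_range]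
      exact ⟨by omega, trivial⟩
    simp only
    rw [mulmul_zero hJ hcp hc hx hy this, smul_zero]
  · rintro ⟨n, i, j⟩ _
    rfl

end

section
variable {p N : ℕ} [hp : Fact p.Prime] {S : Type} [Ring S] [Algebra (ZMod (p ^ N)) S]
  {c : ℕ} {J : Submodule (ZMod (p ^ N)) S} {H : Subgroup Sˣ}

theorem uni_mono (hU : Uni p N c J H) {H1 : Subgroup Sˣ} (h1 : H1 ≤ H) : Uni p N c J H1 :=
  ⟨hU.mul, hU.lt, hU.nil, fun h hh => hU.sub h (h1 hh)⟩

theorem ex_neg_inv (hU : Uni p N c J H) {x : S} (hx : x ∈ J) {a : Sˣ}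
    (ha : (a : S) = ex p N x) : ((a⁻¹ : Sˣ) : S) = ex p N (-x) := by
  have h1 : ex p N x * ex p N (-x) = 1 := by
    rw [← ex_add hU.mul hU.lt hU.nil hx (neg_mem hx) ((Commute.refl x).neg_right), add_neg_cancel,
      ex_zero]
  rw [← ha] at h1
  calc ((a⁻¹ : Sˣ) : S) = ((a⁻¹ : Sˣ) : S) * ((a : S) * ex p N (-x)) := by rw [h1, mul_one]
    _ = ex p N (-x) := by rw [← mul_assoc, Units.inv_mul, one_mul]

/-- closure of the set of logarithms -/
theorem LH_mem (TT : S_TT) (hN : 0 < N) (hU : Uni p N c J H) (x : S) :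
    x ∈ LHm p N J H ↔ x ∈ LH p N J H := by
  haveI : NeZero (p ^ N) := ⟨(pow_pos hp.out.pos N).ne'⟩
  constructor
  · intro hx
    unfold LHm at hx
    induction hx using Submodule.span_induction with
    | mem x hx => exact hx
    | zero => exact ⟨zero_mem _, 1, one_mem _, by rw [ex_zero, Units.val_one]⟩
    | add x y _ _ hx hy =>
      obtain ⟨hxJ, a, ha, hax⟩ := hx
      obtain ⟨hyJ, b, hb, hby⟩ := hy
      obtain ⟨d, hd, hd2⟩ := TT p N c hN S J H hU x hxJ y hyJ a ha b hb hax hby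
      have hdH : d ∈ H := by
        have : ⁅H, H⁆ ≤ H := Subgroup.commutator_le.2 fun g hg k hk => by
          rw [commutatorElement_def]
          exact mul_mem (mul_mem (mul_mem hg hk) (inv_mem hg)) (inv_mem hk)
        exact this hd
      exact ⟨add_mem hxJ hyJ, a * b * d, mul_mem (mul_mem ha hb) hdH, hd2⟩
    | smul t x _ hx =>
      obtain ⟨hxJ, a, ha, hax⟩ := hx
      refine ⟨Submodule.smul_mem _ _ hxJ, a ^ t.val, pow_mem ha _, ?_⟩
      rw [ex_nat hU.mul hU.lt hU.nil hxJ a hax, ZMod.natCast_zmod_val]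
  · intro hx
    exact Submodule.subset_span hx

theorem conjJ (hU : Uni p N c J H) {x : S} (hx : x ∈ J) {h : Sˣ} (hh : h ∈ H) :
    (h : S) * x * ((h⁻¹ : Sˣ) : S) ∈ J := by
  have h1 := hU.sub h hh
  have h2 := hU.sub h⁻¹ (inv_mem hh)
  have hmul : ∀ u ∈ J, ∀ v ∈ J, u * v ∈ J := fun u hu v hv =>
    hU.mul (Submodule.mul_mem_mul hu hv)
  have h3 : (h : S) * x ∈ J := by
    have : (h : S) * x = ((h : S) - 1) * x + x := by noncomm_ring
    rw [this]
    exact add_mem (hmul _ h1 _ hx) hx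
  have : (h : S) * x * ((h⁻¹ : Sˣ) : S) =
      ((h : S) * x) * (((h⁻¹ : Sˣ) : S) - 1) + (h : S) * x := by
    rw [mul_sub, mul_one]
    abel
  rw [this]
  exact add_mem (hmul _ h3 _ h2) h3

/-- conjugation: with `Q` normalised by `H` -/
theorem conjQ (hU : Uni p N c J H) {Q : Subgroup Sˣ} (hQ : Q ≤ H)
    (hn : ∀ h ∈ H, ∀ q ∈ Q, h * q * h⁻¹ ∈ Q) {x : S} (hx : x ∈ LH p N J Q) {h : Sˣ} (hh : h ∈ H) :
    (h : S) * x * ((h⁻¹ : Sˣ) : S) ∈ LH p N J Q := by
  obtain ⟨hxJ, q, hq, hqx⟩ := hx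
  refine ⟨conjJ hU hxJ hh, h * q * h⁻¹, hn h hh q hq, ?_⟩
  rw [ex_conj, ← hqx, Units.val_mul, Units.val_mul]

/-- the Vandermonde argument -/
theorem vdmY (VDM : S_VDM) (NOD : S_NOD) (TT : S_TT) (hN : 0 < N) (hU : Uni p N c J H)
    (Q : Submodule (ZMod (p ^ N)) S) {x y : S} (hx : x ∈ LHm p N J H) (hy : y ∈ J)
    (h : ∀ h ∈ H, (h : S) * y * ((h⁻¹ : Sˣ) : S) - y ∈ Q) : x * y - y * x ∈ Q := by
  obtain ⟨n1, n2, n3, n4⟩ := NOD p N hN
  have hxJ : x ∈ J := ((LH_mem TT hN hU x).1 hx).1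
  have key := VDM p N S Q p (fun j => if j = 0 then 0 else Yc p N x y j) _ n1 n2.ge (by
    intro s _
    obtain ⟨_, a, ha, hax⟩ := (LH_mem TT hN hU (s • x)).1 (Submodule.smul_mem _ s hx)
    have h1 := h a ha
    have hinv := ex_neg_inv hU (Submodule.smul_mem _ s hxJ) hax
    rw [hinv, hax, ← Yc_sum hU.mul hU.lt hU.nil hxJ hy s] at h1
    have e : ∑ j ∈ Finset.range p, s ^ j • (fun j => if j = 0 then 0 else Yc p N x y j) j =
        ∑ j ∈ Finset.range p, s ^ j • Yc p N x y j - y := by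
      obtain ⟨q, hq⟩ : ∃ q, p = q + 1 := ⟨p - 1, by have := hp.out.pos; omega⟩
      rw [show Finset.range p = Finset.range (p - 1 + 1) by congr 1; omega,
        Finset.sum_range_succ', Finset.sum_range_succ', Yc_zero]
      simp only [pow_zero, one_smul, if_true, add_zero, add_sub_cancel_right]
      refine Finset.sum_congr rfl fun j _ => ?_
      rw [if_neg (by omega)]
    rw [e]
    exact h1) 1 hp.out.one_lt
  simp only [one_ne_zero, if_false] at key
  rwa [Yc_one] at key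

end

/-- part LH1 -/
theorem t_LH1 (TT : S_TT) (VDM : S_VDM) (NOD : S_NOD) : S_LH1 := by
  intro p N c hp hN S _ _ J H hU
  have h1 := LH_mem TT hN hU
  have h2 : ∀ x ∈ LHm p N J H, ∀ h ∈ H, (h : S) * x * ((h⁻¹ : Sˣ) : S) ∈ LHm p N J H := by
    intro x hx h hh
    rw [h1] at hx ⊢
    exact conjQ hU le_rfl (fun h hh q hq => mul_mem (mul_mem hh hq) (inv_mem hh)) hx hh
  have h4 : ∀ h ∈ H, ∃! x, x ∈ LHm p N J H ∧ ex p N x = (h : S) := by
    intro h hh
    obtain ⟨x, hx, hxe, _⟩ := ex_surj (N := N) hU.mul hU.nil (hU.sub h hh)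
    refine ⟨x, ⟨(h1 x).2 ⟨hx, h, hh, hxe.symm⟩, hxe⟩, ?_⟩
    rintro z ⟨hz, hze⟩
    exact ex_inj hU.mul hU.nil ((h1 z).1 hz).1 hx (hze.trans hxe.symm)
  refine ⟨h1, h2, ?_, h4, ?_, ?_⟩
  · intro x hx y hy
    refine vdmY VDM NOD TT hN hU _ hx ((h1 y).1 hy).1 fun h hh => ?_
    exact sub_mem (h2 y hy h hh) hy
  · choose! f hf hf2 using h4
    symm
    refine Nat.card_congr (Equiv.ofBijective (fun h : H => (⟨f h, (hf h h.2).1⟩ : LHm p N J H))
      ⟨?_, ?_⟩)
    · intro a b hab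
      have : f a = f b := congrArg Subtype.val hab
      ext
      rw [← (hf a a.2).2, ← (hf b b.2).2, this]
    · rintro ⟨x, hx⟩
      obtain ⟨hxJ, h, hh, hhx⟩ := (h1 x).1 hx
      refine ⟨⟨h, hh⟩, ?_⟩
      ext
      exact (hf2 h hh x ⟨hx, hhx.symm⟩).symm
  · intro H1 hH1
    refine ⟨Submodule.span_mono ?_, fun x hx => ?_⟩
    · rintro x ⟨hx, h, hh, he⟩
      exact ⟨hx, h, hH1 hh, he⟩
    · rw [LH_mem TT hN (uni_mono hU hH1)]
      exact ⟨fun h => h.2, fun h => ⟨((h1 x).1 hx).1, h⟩⟩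

section
variable {G : Type} [Group G]

/-- two elements equal modulo `Q` generate a group with commutators in `Q` -/
theorem comm_le {H Q : Subgroup G} (hQ : Q ≤ H) (hn : ∀ h ∈ H, ∀ q ∈ Q, h * q * h⁻¹ ∈ Q)
    {a b : G} (ha : a ∈ H) (hb : b ∈ H) (hab : a⁻¹ * b ∈ Q) :
    ⁅Subgroup.closure {a, b}, Subgroup.closure {a, b}⁆ ≤ Q := by
  -- every element of the closure is `a ^ n * q`
  have hle : ∀ g ∈ Subgroup.closure {a, b}, ∃ (n : ℤ) (q : G), q ∈ Q ∧ g = a ^ n * q := by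
    have hn' : ∀ h ∈ H, ∀ q ∈ Q, h⁻¹ * q * h ∈ Q := fun h hh q hq => by
      have := hn h⁻¹ (inv_mem hh) q hq
      rwa [inv_inv] at this
    intro g hg
    induction hg using Subgroup.closure_induction with
    | mem x hx =>
      rcases hx with rfl | hx
      · exact ⟨1, 1, one_mem _, by simp⟩
      · rw [Set.mem_singleton_iff] at hx
        subst hx
        exact ⟨1, a⁻¹ * x, hab, by simp⟩
    | one => exact ⟨0, 1, one_mem _, by simp⟩
    | mul x y _ _ hx hy =>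
      obtain ⟨n, q, hq, rfl⟩ := hx
      obtain ⟨m, r, hr, rfl⟩ := hy
      refine ⟨n + m, (a ^ m)⁻¹ * q * a ^ m * r, mul_mem (hn' _ (zpow_mem ha m) _ hq) hr, ?_⟩
      rw [zpow_add]
      group
    | inv x _ hx =>
      obtain ⟨n, q, hq, rfl⟩ := hx
      refine ⟨-n, a ^ n * q⁻¹ * (a ^ n)⁻¹, hn _ (zpow_mem ha n) _ (inv_mem hq), ?_⟩
      group
  rw [Subgroup.commutator_le]
  intro g1 hg1 g2 hg2
  obtain ⟨n, q, hq, rfl⟩ := hle g1 hg1
  obtain ⟨m, r, hr, rfl⟩ := hle g2 hg2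
  rw [commutatorElement_def]
  have e : a ^ n * q * (a ^ m * r) * (a ^ n * q)⁻¹ * (a ^ m * r)⁻¹ =
      (a ^ n * q * (a ^ n)⁻¹) * ((a ^ (n + m)) * (r * q⁻¹) * (a ^ (n + m))⁻¹) *
        (a ^ m * r⁻¹ * (a ^ m)⁻¹) := by
    group
  rw [e]
  exact mul_mem (mul_mem (hn _ (zpow_mem ha n) _ hq)
    (hn _ (zpow_mem ha (n + m)) _ (mul_mem hr (inv_mem hq)))) (hn _ (zpow_mem ha m) _ (inv_mem hr))

end

/-- part LH2 -/
theorem t_LH2 (TT : S_TT) (VDM : S_VDM) (NOD : S_NOD) : S_LH2 := by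
  intro p N c hp hN S _ _ J H Q hU hQ hn
  have h1 := LH_mem TT hN hU
  have hUQ := uni_mono hU hQ
  have h1Q := LH_mem TT hN hUQ
  have hn' : ∀ h ∈ H, ∀ q ∈ Q, h⁻¹ * q * h ∈ Q := fun h hh q hq => by
    have := hn h⁻¹ (inv_mem hh) q hq
    rwa [inv_inv] at this
  have key : ∀ x ∈ LHm p N J H, ∀ y ∈ LHm p N J H, ∀ a b : Sˣ, (a : S) = ex p N x →
      (b : S) = ex p N y → (a⁻¹ * b ∈ Q ↔ x - y ∈ LHm p N J Q) := by
    intro x hx y hy a b ha hb
    obtain ⟨hxJ, a', ha', hax⟩ := (h1 x).1 hx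
    obtain ⟨hyJ, b', hb', hby⟩ := (h1 y).1 hy
    obtain rfl : a' = a := by ext; rw [ha, hax]
    obtain rfl : b' = b := by ext; rw [hb, hby]
    constructor
    · intro hab
      have hcl : Subgroup.closure {a', b'} ≤ H := by
        rw [Subgroup.closure_le]
        rintro z (rfl | hz)
        · exact ha'
        · rw [Set.mem_singleton_iff] at hz
          subst hz
          exact hb'
      have hc := comm_le hQ hn ha' hb' hab
      have hmema : a' ∈ Subgroup.closure {a', b'} := Subgroup.subset_closure (by simp)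
      have hmemb : b' ∈ Subgroup.closure {a', b'} := Subgroup.subset_closure (by simp)
      obtain ⟨d, hd, hd2⟩ := TT p N c hN S J _ (uni_mono hU hcl) x hxJ (-y) (neg_mem hyJ) a' hmema
        b'⁻¹ (inv_mem hmemb) ha (ex_neg_inv hU hyJ hb)
      rw [h1Q, sub_eq_add_neg]
      refine ⟨add_mem hxJ (neg_mem hyJ), a' * b'⁻¹ * d, mul_mem ?_ (hc hd), hd2⟩
      have e : a' * b'⁻¹ = a' * (a'⁻¹ * b')⁻¹ * a'⁻¹ := by group
      rw [e]
      exact hn _ ha' _ (inv_mem hab)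
    · intro hxy
      obtain ⟨hxyJ, q, hq, hqe⟩ := (h1Q _).1 hxy
      -- `q` and `b'`: use the pair `b', b' * q`
      have hbq : b'⁻¹ * (b' * q) ∈ Q := by rw [inv_mul_cancel_left]; exact hq
      have hc := comm_le hQ hn hb' (mul_mem hb' (hQ hq)) hbq
      have hcl : Subgroup.closure {b', b' * q} ≤ H := by
        rw [Subgroup.closure_le]
        rintro z (rfl | hz)
        · exact hb'
        · rw [Set.mem_singleton_iff] at hz
          subst hz
          exact mul_mem hb' (hQ hq)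
      have hmemb : b' ∈ Subgroup.closure {b', b' * q} := Subgroup.subset_closure (by simp)
      have hmemq : q ∈ Subgroup.closure {b', b' * q} := by
        have h3 : b' * q ∈ Subgroup.closure {b', b' * q} := Subgroup.subset_closure (by simp)
        have h4 := mul_mem (inv_mem hmemb) h3
        rwa [inv_mul_cancel_left] at h4
      obtain ⟨d, hd, hd2⟩ := TT p N c hN S J _ (uni_mono hU hcl) (x - y) hxyJ y hyJ q hmemq
        b' hmemb hqe hb
      rw [sub_add_cancel, ← ha] at hd2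
      have hd3 : q * b' * d = a' := Units.ext hd2
      rw [← hd3]
      have e : (q * b' * d)⁻¹ * b' = d⁻¹ * (b'⁻¹ * q⁻¹ * b') := by group
      rw [e]
      exact mul_mem (inv_mem (hc hd)) (hn' _ hb' _ (inv_mem hq))
  refine ⟨key, ?_, ?_⟩
  · intro x hx y hy
    refine vdmY VDM NOD TT hN hU _ hx ((h1Q y).1 hy).1 fun h hh => ?_
    refine sub_mem ?_ hy
    rw [h1Q] at hy ⊢
    exact conjQ hU hQ hn hy hh
  · intro hHQ x hx y hy
    obtain ⟨hyJ, b, hb, hby⟩ := (h1 y).1 hy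
    refine vdmY VDM NOD TT hN hU _ hx hyJ fun h hh => ?_
    have hyc : (h : S) * y * ((h⁻¹ : Sˣ) : S) ∈ LHm p N J H := by
      rw [h1]
      exact conjQ hU le_rfl (fun h hh q hq => mul_mem (mul_mem hh hq) (inv_mem hh)) ⟨hyJ, b, hb, hby⟩
        hh
    refine (key _ hyc y hy (h * b * h⁻¹) b ?_ hby).1 ?_
    · rw [ex_conj, ← hby, Units.val_mul, Units.val_mul]
    · have e : (h * b * h⁻¹)⁻¹ * b = ⁅h, b⁻¹⁆ := by
        rw [commutatorElement_def]
        group
      rw [e]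
      exact hHQ (Subgroup.commutator_mem_commutator hh (inv_mem hb))

end H11.NE
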